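import Pool.Agent.N977.P.Stm

/-!
The initial data (part INI of project NSP of helper977).
-/

open MeasureTheory Set Filter Topology
open scoped ContDiff ComplexConjugate

namespace Pool.Agent.N61.NSP

open H459R3.NS Pool.Agent.N977.Q Pool.Agent.N977.S Pool.Agent.N977.P

variable {g : K3 → ℝ}

theorem Xf_sum (hf : {k | g k ≠ 0}.Finite) (x : V) :
    Xf g x = ∑ k ∈ hf.toFinset, g k * Rm k 1 x := by
  unfold Xf
  rw [tsum_eq_sum (s := hf.toFinset)]
  · exact Finset.sum_congr rfl fun k _ => by rw [Rm_one]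
  · intro k hk
    have : g k = 0 := by simpa using hk
    rw [this, zero_mul]

theorem SP_sum {ι : Type*} (s : Finset ι) (f : ι → V → ℝ) (h : ∀ i ∈ s, SP (f i)) :
    SP (fun x => ∑ i ∈ s, f i x) where
  smooth := ContDiff.sum fun i hi => (h i hi).smooth
  per := fun j x => Finset.sum_congr rfl fun i hi => (h i hi).per j x

theorem Xf_sp (hf : {k | g k ≠ 0}.Finite) : SP (Xf g) := by
  have : Xf g = fun x => ∑ k ∈ hf.toFinset, g k * Rm k 1 x := funext (Xf_sum hf)
  rw [this]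
  exact SP_sum _ _ fun k _ => sp_cmul (Rm_sp k 1) _

theorem tsum_supp (hf : {k | g k ≠ 0}.Finite) (c : K3 → ℝ) :
    ∑' k, g k * c k = ∑ k ∈ hf.toFinset, g k * c k := by
  rw [tsum_eq_sum (s := hf.toFinset)]
  intro k hk
  have : g k = 0 := by simpa using hk
  rw [this, zero_mul]

theorem int_Xf (hf : {k | g k ≠ 0}.Finite) {h : V → ℝ} (hh : Continuous h) :
    ∫ x in cube, Xf g x * h x = ∑' k, g k * (fr h k).re := by
  rw [tsum_supp hf]
  have e1 : ∀ x, Xf g x * h x = ∑ k ∈ hf.toFinset, g k * (Rm k 1 x * h x) := fun x => by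
    rw [Xf_sum hf, Finset.sum_mul]
    exact Finset.sum_congr rfl fun k _ => by ring
  simp_rw [e1]
  rw [integral_finsetSum]
  · refine Finset.sum_congr rfl fun k _ => ?_
    rw [integral_const_mul, int_Rm_mul k 1 hh, one_mul, fr_neg' hh, Complex.conj_re]
  · intro k _
    exact integrableOn_cube (continuous_const.mul ((Rm_cont k 1).mul hh))

theorem am_int (hf : {k | g k ≠ 0}.Finite) {u : V → V} (hu : SPV u) :
    am g u = ∫ x in cube, Xf g x * u x 2 := (int_Xf hf (spv_sp hu 2).cont).symm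

theorem fr_Xf (hf : {k | g k ≠ 0}.Finite) (he : ∀ k, g (-k) = g k) (l : K3) :
    fr (Xf g) l = (g l : ℝ) := by
  have hc := (Xf_sp hf).cont
  apply Complex.ext
  · rw [fr_re hc, Complex.ofReal_re]
    have e : ∀ x, Real.cos (2 * Real.pi * ph l x) * Xf g x = Xf g x * Rm l 1 x := fun x => by
      rw [Rm_one]; ring
    simp_rw [e]
    rw [int_Xf hf (Rm_cont l 1)]
    have e2 : ∀ k, g k * (fr (Rm l 1) k).re = (if k = l then g l / 2 else 0)
        + (if k = -l then g l / 2 else 0) := by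
      intro k
      rw [fr_Rm]
      by_cases h1 : k = l
      · by_cases h2 : k = -l
        · rw [if_pos h1, if_pos h2, if_pos h1, if_pos h2, h1]
          simp
        · rw [if_pos h1, if_neg h2, if_pos h1, if_neg h2, h1]
          simp
          ring
      · by_cases h2 : k = -l
        · rw [if_neg h1, if_pos h2, if_neg h1, if_pos h2, h2, he]
          simp
          ring
        · rw [if_neg h1, if_neg h2, if_neg h1, if_neg h2]
          simp
    simp_rw [e2]
    rw [Summable.tsum_add, tsum_ite_eq, tsum_ite_eq]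
    · ring
    · exact (hasSum_ite_eq l _).summable
    · exact (hasSum_ite_eq (-l) _).summable
  · rw [fr_im hc, Complex.ofReal_im]
    have e : ∀ x, Real.sin (2 * Real.pi * ph l x) * Xf g x = Xf g x * Rm l (-Complex.I) x :=
      fun x => by rw [Rm_I]; ring
    simp_rw [e]
    rw [int_Xf hf (Rm_cont l _)]
    have e2 : ∀ k, g k * (fr (Rm l (-Complex.I)) k).re = 0 := by
      intro k
      rw [fr_Rm]
      split_ifs <;> simp
    simp_rw [e2]
    simp

section data

variable {J : ℕ → ℕ} {G : Fin 2 → ℕ → K3 → ℝ} (hP : Pk J G)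

theorem dP_two (i : ℕ) (x : V) : dP G i x 2 = 4 / 5 * Xf (G 0 i) x + 3 / 5 * Xf (G 1 i) x := rfl

theorem dP_ne (i : ℕ) (x : V) {j : Fin 3} (hj : j ≠ 2) : dP G i x j = 0 := by
  fin_cases j
  · rfl
  · rfl
  · exact absurd rfl hj

include hP

theorem dP_sp (i : ℕ) : SP (fun x => dP G i x 2) :=
  (sp_cmul (Xf_sp (hP.fin 0 i)) _).add (sp_cmul (Xf_sp (hP.fin 1 i)) _)

theorem dP_spv (i : ℕ) : SPV (dP G i) := by
  refine sp_spv fun j => ?_
  by_cases hj : j = 2
  · subst hj
    exact dP_sp hP i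
  · simp_rw [dP_ne i _ hj]
    exact ⟨contDiff_const, fun i x => rfl⟩

theorem fr_dP (i : ℕ) (k : K3) : fr (fun x => dP G i x 2) k
    = ((4 / 5 * G 0 i k + 3 / 5 * G 1 i k : ℝ) : ℂ) := by
  simp_rw [dP_two]
  have c1 : Continuous fun x => 4 / 5 * Xf (G 0 i) x :=
    continuous_const.mul (Xf_sp (hP.fin 0 i)).cont
  have c2 : Continuous fun x => 3 / 5 * Xf (G 1 i) x :=
    continuous_const.mul (Xf_sp (hP.fin 1 i)).cont
  rw [fr_add c1 c2, fr_smul, fr_smul]
  have e1 : fr (fun x => Xf (G 0 i) x) k = (G 0 i k : ℝ) := fr_Xf (hP.fin 0 i) (hP.even 0 i) k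
  have e2 : fr (fun x => Xf (G 1 i) x) k = (G 1 i k : ℝ) := fr_Xf (hP.fin 1 i) (hP.even 1 i) k
  rw [e1, e2]
  push_cast
  ring

theorem G_mul {e e' : Fin 2} {n n' : ℕ} (h : ¬ (e = e' ∧ n = n')) (k : K3) :
    G e n k * G e' n' k = 0 := by
  by_contra hc
  exact h (hP.disj e n e' n' k (left_ne_zero_of_mul hc) (right_ne_zero_of_mul hc))

theorem am_dP0 (i m : ℕ) : am (G 0 m) (dP G i) = if i = m then 4 / 5 else 0 := by
  unfold am
  simp_rw [fr_dP hP, Complex.ofReal_re]
  by_cases h : i = m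
  · subst h
    rw [if_pos rfl]
    have e : ∀ k, G 0 i k * (4 / 5 * G 0 i k + 3 / 5 * G 1 i k) = 4 / 5 * G 0 i k ^ 2 := by
      intro k
      have := G_mul hP (e := 0) (e' := 1) (n := i) (n' := i) (by simp) k
      linear_combination (3 / 5) * this
    simp_rw [e]
    rw [tsum_mul_left, hP.sq, mul_one]
  · rw [if_neg h]
    have e : ∀ k, G 0 m k * (4 / 5 * G 0 i k + 3 / 5 * G 1 i k) = 0 := by
      intro k
      have h1 := G_mul hP (e := 0) (e' := 1) (n := m) (n' := i) (by simp) k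
      have h2 := G_mul hP (e := 0) (e' := 0) (n := m) (n' := i) (fun h' => h h'.2.symm) k
      linear_combination (3 / 5) * h1 + (4 / 5) * h2
    simp_rw [e]
    simp

theorem am_dP1 (i m : ℕ) : am (G 1 m) (dP G i) = if i = m then 3 / 5 else 0 := by
  unfold am
  simp_rw [fr_dP hP, Complex.ofReal_re]
  by_cases h : i = m
  · subst h
    rw [if_pos rfl]
    have e : ∀ k, G 1 i k * (4 / 5 * G 0 i k + 3 / 5 * G 1 i k) = 3 / 5 * G 1 i k ^ 2 := by
      intro k
      have := G_mul hP (e := 1) (e' := 0) (n := i) (n' := i) (by simp) k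
      linear_combination (4 / 5) * this
    simp_rw [e]
    rw [tsum_mul_left, hP.sq, mul_one]
  · rw [if_neg h]
    have e : ∀ k, G 1 m k * (4 / 5 * G 0 i k + 3 / 5 * G 1 i k) = 0 := by
      intro k
      have h1 := G_mul hP (e := 1) (e' := 1) (n := m) (n' := i) (fun h' => h h'.2.symm) k
      have h2 := G_mul hP (e := 1) (e' := 0) (n := m) (n' := i) (by simp) k
      linear_combination (3 / 5) * h1 + (4 / 5) * h2
    simp_rw [e]
    simp

theorem int_dP (i : ℕ) : ∑ j, ∫ x in cube, dP G i x j ^ 2 = 1 := by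
  rw [Fin.sum_univ_three]
  have z : ∀ j : Fin 3, j ≠ 2 → ∫ x in cube, dP G i x j ^ 2 = 0 := fun j hj => by
    simp_rw [dP_ne i _ hj]
    simp
  rw [z 0 (by decide), z 1 (by decide), zero_add, zero_add]
  have hs := dP_spv hP i
  have a0 := am_dP0 hP i i
  have a1 := am_dP1 hP i i
  rw [am_int (hP.fin 0 i) hs, if_pos rfl] at a0
  rw [am_int (hP.fin 1 i) hs, if_pos rfl] at a1
  have e : ∀ x, dP G i x 2 ^ 2 = 4 / 5 * (Xf (G 0 i) x * dP G i x 2)
      + 3 / 5 * (Xf (G 1 i) x * dP G i x 2) := fun x => by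
    conv_lhs => rw [sq]
    nth_rewrite 1 [dP_two]
    ring
  simp_rw [e]
  have c0 : IntegrableOn (fun x => 4 / 5 * (Xf (G 0 i) x * dP G i x 2)) cube :=
    integrableOn_cube (continuous_const.mul ((Xf_sp (hP.fin 0 i)).cont.mul (dP_sp hP i).cont))
  have c1 : IntegrableOn (fun x => 3 / 5 * (Xf (G 1 i) x * dP G i x 2)) cube :=
    integrableOn_cube (continuous_const.mul ((Xf_sp (hP.fin 1 i)).cont.mul (dP_sp hP i).cont))
  rw [integral_add c0 c1, integral_const_mul, integral_const_mul, a0, a1]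
  norm_num

theorem Xf_two (e : Fin 2) (n : ℕ) (a : ℝ) (x : V) :
    Xf (G e n) (x + Pi.single 2 a) = Xf (G e n) x := by
  rw [Xf_sum (hP.fin e n), Xf_sum (hP.fin e n)]
  refine Finset.sum_congr rfl fun k hk => ?_
  have hk' : k 2 = 0 := hP.hor e n k (by simpa using hk)
  unfold Rm
  rw [ee_add, ee_single_two hk', mul_one]

theorem div_dP (i : ℕ) (x : V) : ∑ j, pd j (fun y => dP G i y j) x = 0 := by
  have h2 : ∀ (a : ℝ) (x : V), dP G i (x + Pi.single 2 a) 2 = dP G i x 2 := fun a x => by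
    rw [dP_two, dP_two, Xf_two hP, Xf_two hP]
  rw [Fin.sum_univ_three, pd_two_ind (dP_sp hP i) h2]
  have z : ∀ j : Fin 3, j ≠ 2 → pd j (fun y => dP G i y j) x = 0 := fun j hj => by
    simp_rw [dP_ne i _ hj]
    simp [pd]
  rw [z 0 (by decide), z 1 (by decide)]
  simp

theorem am_lin (e : Fin 2) (m : ℕ) {u v : V → V} (hu : SPV u) (hv : SPV v) (r : ℝ) :
    am (G e m) (fun x => u x + r • v x) = am (G e m) u + r * am (G e m) v := by
  unfold am
  rw [tsum_supp (hP.fin e m), tsum_supp (hP.fin e m), tsum_supp (hP.fin e m), Finset.mul_sum,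
    ← Finset.sum_add_distrib]
  refine Finset.sum_congr rfl fun k _ => ?_
  have h1 : (fun x => (u x + r • v x) 2) = fun x => u x 2 + r * v x 2 := rfl
  have c2 : Continuous fun x => r * v x 2 := continuous_const.mul (spv_sp hv 2).cont
  rw [h1, fr_add (spv_sp hu 2).cont c2, fr_smul, Complex.add_re, Complex.re_ofReal_mul]
  ring

/-! ### estimates -/

omit hP in
theorem len_qq (e : Fin 2) (n : ℕ) : len (qq e n) ^ 2 = 4 * (Mn 8 n : ℝ) ^ 2 ∨
    len (qq e n) ^ 2 = 5 * (Mn 8 n : ℝ) ^ 2 := by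
  obtain ⟨h0, h2⟩ := len_ev_sq
  fin_cases e
  · left
    show len ((Mn 8 n : ℤ) • ev 0) ^ 2 = _
    rw [len_sq_ev, h0]
  · right
    show len ((Mn 8 n : ℤ) • ev 2) ^ 2 = _
    rw [len_sq_ev, h2]

theorem len_pk {e : Fin 2} {n : ℕ} {k : K3} (hk : G e n k ≠ 0) :
    399 / 100 * (Mn 8 n : ℝ) ^ 2 ≤ len k ^ 2 ∧ len k ^ 2 ≤ 501 / 100 * (Mn 8 n : ℝ) ^ 2 := by
  have h1 := abs_le.1 (hP.near e n k hk)
  have h2 := hP.J2 n
  have hM : (0 : ℝ) ≤ Mn 8 n := Nat.cast_nonneg _
  have h3 : (Mn 8 n : ℝ) * ((J n : ℝ) - 1) ≤ Mn 8 n * (Mn 8 n / 1000) :=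
    mul_le_mul_of_nonneg_left (by linarith) hM
  rcases len_qq e n with h | h
  · rw [h] at h1
    constructor <;> nlinarith
  · rw [h] at h1
    constructor <;> nlinarith

theorem len_cmp {e : Fin 2} {n : ℕ} {k l : K3} (hk : G e n k ≠ 0) (hl : G e n l ≠ 0) :
    len k ≤ 6 / 5 * len l := by
  have h1 := (len_pk hP hk).2
  have h2 := (len_pk hP hl).1
  have h3 := len_nonneg k
  have h4 := len_nonneg l
  refine le_of_sq_le_sq ?_ (by positivity)
  nlinarith [sq_nonneg (Mn 8 n : ℝ)]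

theorem abs_am (e : Fin 2) (m : ℕ) (w : V → V) :
    |am (G e m) w| ≤ 2 / J m * ∑ l ∈ (hP.fin e m).toFinset, un w l := by
  unfold am
  rw [tsum_supp (hP.fin e m), Finset.mul_sum]
  refine (Finset.abs_sum_le_sum_abs _ _).trans (Finset.sum_le_sum fun l _ => ?_)
  rw [abs_mul]
  exact mul_le_mul (hP.sup e m l) ((Complex.abs_re_le_norm _).trans (fr_le_un w l 2))
    (abs_nonneg _) (by positivity)

theorem pow_le {e : Fin 2} {m : ℕ} {l : K3} (hl : G e m l ≠ 0) :
    (Mn 8 m : ℝ) ^ 6 ≤ (1 + len l) ^ 6 := by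
  have h2 := (len_pk hP hl).1
  have h4 := len_nonneg l
  have h5 : (Mn 8 m : ℝ) ≤ len l := by
    refine le_of_sq_le_sq ?_ h4
    nlinarith [sq_nonneg (Mn 8 m : ℝ)]
  exact pow_le_pow_left₀ (Nat.cast_nonneg _) (by linarith) 6

omit hP in
theorem sum_W_le {w : V → V} (hw : SPV w) {R : ℝ} (hR : Wn w ≤ R) (s : Finset K3) :
    ∑ l ∈ s, (1 + len l) ^ 6 * un w l ≤ R :=
  ((Wn_summable hw).sum_le_tsum s fun l _ => mul_nonneg (pow_nonneg
    (by linarith [len_nonneg l]) _) (un_nonneg w l)).trans hR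

theorem am_w {w : V → V} (hw : SPV w) {R : ℝ} (hR : Wn w ≤ R) (e : Fin 2) (m : ℕ) :
    (Mn 8 m : ℝ) ^ 6 * |am (G e m) w| ≤ 2 * R := by
  have hR0 := R_nonneg hw hR
  have hJ : (1 : ℝ) ≤ J m := by exact_mod_cast hP.J1 m
  have h1 : (Mn 8 m : ℝ) ^ 6 * ∑ l ∈ (hP.fin e m).toFinset, un w l ≤ R := by
    rw [Finset.mul_sum]
    refine le_trans (Finset.sum_le_sum fun l hl => ?_) (sum_W_le hw hR (hP.fin e m).toFinset)
    exact mul_le_mul_of_nonneg_right (pow_le hP (by simpa using hl)) (un_nonneg w l)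
  calc (Mn 8 m : ℝ) ^ 6 * |am (G e m) w|
      ≤ (Mn 8 m : ℝ) ^ 6 * (2 / J m * ∑ l ∈ (hP.fin e m).toFinset, un w l) :=
        mul_le_mul_of_nonneg_left (abs_am hP e m w) (by positivity)
    _ = 2 / J m * ((Mn 8 m : ℝ) ^ 6 * ∑ l ∈ (hP.fin e m).toFinset, un w l) := by ring
    _ ≤ 2 / J m * R := mul_le_mul_of_nonneg_left h1 (by positivity)
    _ ≤ 2 * R := by
        apply mul_le_mul_of_nonneg_right _ hR0
        exact div_le_self (by norm_num) hJ

/-- the packet part at one frequency -/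
theorem term_le {e : Fin 2} {n : ℕ} {k : K3} (hk : G e n k ≠ 0) (w : V → V) {M : ℝ}
    (hM : 1 ≤ M) : gw M k * (|G e n k| * |am (G e n) w|)
      ≤ |G e n k| * (4 / J n * ∑ l ∈ (hP.fin e n).toFinset, (1 + len l) ^ 6 * un w l) := by
  have h2 : gw M k ≤ (1 + len k) ^ 3 := by
    have hl := len_nonneg k
    unfold gw
    have a1 : max 1 (len k / M) ≤ 1 + len k :=
      max_le (by linarith) ((div_le_self hl hM).trans (by linarith))
    exact pow_le_pow_left₀ (by positivity) a1 3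
  have h3 : gw M k * ∑ l ∈ (hP.fin e n).toFinset, un w l
      ≤ 2 * ∑ l ∈ (hP.fin e n).toFinset, (1 + len l) ^ 6 * un w l := by
    rw [Finset.mul_sum, Finset.mul_sum]
    refine Finset.sum_le_sum fun l hl => ?_
    rw [← mul_assoc]
    apply mul_le_mul_of_nonneg_right _ (un_nonneg w l)
    refine h2.trans ?_
    have h4 := len_cmp hP hk (l := l) (by simpa using hl)
    have h5 := len_nonneg l
    have h6 := len_nonneg k
    calc (1 + len k) ^ 3 ≤ (6 / 5 * (1 + len l)) ^ 3 := pow_le_pow_left₀ (by linarith) (by linarith) 3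
      _ = 216 / 125 * (1 + len l) ^ 3 := by ring
      _ ≤ 2 * (1 + len l) ^ 3 := by
          apply mul_le_mul_of_nonneg_right (by norm_num) (by positivity)
      _ ≤ 2 * (1 + len l) ^ 6 := by
          apply mul_le_mul_of_nonneg_left _ (by norm_num)
          exact pow_le_pow_right₀ (by linarith) (by norm_num)
  calc gw M k * (|G e n k| * |am (G e n) w|)
      ≤ gw M k * (|G e n k| * (2 / J n * ∑ l ∈ (hP.fin e n).toFinset, un w l)) := by
        apply mul_le_mul_of_nonneg_left _ (gw_pos M k).le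
        exact mul_le_mul_of_nonneg_left (abs_am hP e n w) (abs_nonneg _)
    _ = |G e n k| * (2 / J n * (gw M k * ∑ l ∈ (hP.fin e n).toFinset, un w l)) := by ring
    _ ≤ |G e n k| * (2 / J n * (2 * ∑ l ∈ (hP.fin e n).toFinset, (1 + len l) ^ 6 * un w l)) := by
        apply mul_le_mul_of_nonneg_left _ (abs_nonneg _)
        exact mul_le_mul_of_nonneg_left h3 (by positivity)
    _ = _ := by ring

/-- the packet part of `w` at the frequency `k` -/
noncomputable def Pp (G : Fin 2 → ℕ → K3 → ℝ) (w : V → V) (k : K3) : ℝ :=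
  ∑' n, (G 0 n k * am (G 0 n) w + G 1 n k * am (G 1 n) w)

theorem Pp_eq {e : Fin 2} {n : ℕ} {k : K3} (hk : G e n k ≠ 0) (w : V → V) :
    HasSum (fun n => G 0 n k * am (G 0 n) w + G 1 n k * am (G 1 n) w)
      (G e n k * am (G e n) w) := by
  have h1 : ∀ e' n', ¬ (e = e' ∧ n = n') → G e' n' k = 0 := fun e' n' h => by
    by_contra hc
    exact h (hP.disj e n e' n' k hk hc)
  have h2 : G 0 n k * am (G 0 n) w + G 1 n k * am (G 1 n) w = G e n k * am (G e n) w := by
    fin_cases e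
    · show _ = G 0 n k * am (G 0 n) w
      rw [h1 1 n (by simp)]
      ring
    · show _ = G 1 n k * am (G 1 n) w
      rw [h1 0 n (by simp)]
      ring
  rw [← h2]
  refine hasSum_single n fun n' hn => ?_
  rw [h1 0 n' (fun h => hn h.2.symm), h1 1 n' (fun h => hn h.2.symm)]
  ring

omit hP in
theorem Pp_zero {k : K3} (hk : ∀ e n, G e n k = 0) (w : V → V) :
    HasSum (fun n => G 0 n k * am (G 0 n) w + G 1 n k * am (G 1 n) w) 0 := by
  have : (fun n => G 0 n k * am (G 0 n) w + G 1 n k * am (G 1 n) w) = fun _ => 0 := by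
    funext n
    rw [hk, hk]
    ring
  rw [this]
  exact hasSum_zero

theorem Pp_sum (w : V → V) (k : K3) :
    Summable (fun n => G 0 n k * am (G 0 n) w + G 1 n k * am (G 1 n) w) := by
  by_cases hk : ∀ e n, G e n k = 0
  · exact (Pp_zero hk w).summable
  · push Not at hk
    obtain ⟨e, n, hk⟩ := hk
    exact (Pp_eq hP hk w).summable

/-- the sum of the packet parts -/
theorem sum_Pp {w : V → V} (hw : SPV w) {R : ℝ} (hR : Wn w ≤ R) {M : ℝ} (hM : 1 ≤ M) :
    ∑' k, ENNReal.ofReal (gw M k * |Pp G w k|) ≤ ENNReal.ofReal (12 * R) := by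
  have hR0 := R_nonneg hw hR
  have hW : ∀ l, 0 ≤ (1 + len l) ^ 6 * un w l := fun l => mul_nonneg (pow_nonneg
    (by linarith [len_nonneg l]) _) (un_nonneg w l)
  set A : Fin 2 × ℕ → ℝ := fun p => ∑ l ∈ (hP.fin p.1 p.2).toFinset, (1 + len l) ^ 6 * un w l
    with hA
  have hA0 : ∀ p, 0 ≤ A p := fun p => Finset.sum_nonneg fun l _ => hW l
  have h1 : ∀ k, ENNReal.ofReal (gw M k * |Pp G w k|)
      ≤ ∑' p : Fin 2 × ℕ, ENNReal.ofReal (|G p.1 p.2 k| * (4 / J p.2 * A p)) := by
    intro k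
    by_cases hk : ∀ e n, G e n k = 0
    · have : Pp G w k = 0 := (Pp_zero hk w).tsum_eq
      rw [this]
      simp
    · push Not at hk
      obtain ⟨e, n, hk⟩ := hk
      have : Pp G w k = G e n k * am (G e n) w := (Pp_eq hP hk w).tsum_eq
      rw [this, abs_mul]
      refine le_trans (ENNReal.ofReal_le_ofReal (term_le hP hk w hM)) ?_
      exact ENNReal.le_tsum (f := fun p : Fin 2 × ℕ =>
        ENNReal.ofReal (|G p.1 p.2 k| * (4 / J p.2 * A p))) (e, n)
  have h2 : ∀ p : Fin 2 × ℕ, ∑' k, ENNReal.ofReal (|G p.1 p.2 k| * (4 / J p.2 * A p))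
      ≤ 12 * ∑' l, (if G p.1 p.2 l ≠ 0 then ENNReal.ofReal ((1 + len l) ^ 6 * un w l) else 0) := by
    intro p
    have hJ : (1 : ℝ) ≤ J p.2 := by exact_mod_cast hP.J1 p.2
    have e1 : ∑' l, (if G p.1 p.2 l ≠ 0 then ENNReal.ofReal ((1 + len l) ^ 6 * un w l) else 0)
        = ENNReal.ofReal (A p) := by
      rw [hA, ENNReal.ofReal_sum_of_nonneg fun l _ => hW l,
        tsum_eq_sum (s := (hP.fin p.1 p.2).toFinset)]
      · refine Finset.sum_congr rfl fun l hl => ?_
        rw [if_pos (by simpa using hl)]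
      · intro l hl
        rw [if_neg (by simpa using hl)]
    have e2 : ∑' k, ENNReal.ofReal (|G p.1 p.2 k|) ≤ ENNReal.ofReal (3 * J p.2) := by
      have hs : Summable fun k => |G p.1 p.2 k| :=
        summable_of_ne_finset_zero (s := (hP.fin p.1 p.2).toFinset) fun k hk => by
          have : G p.1 p.2 k = 0 := by simpa using hk
          rw [this, abs_zero]
      rw [← ENNReal.ofReal_tsum_of_nonneg (fun k => abs_nonneg _) hs]
      exact ENNReal.ofReal_le_ofReal (hP.l1 p.1 p.2)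
    have e3 : ∀ k, ENNReal.ofReal (|G p.1 p.2 k| * (4 / J p.2 * A p))
        = ENNReal.ofReal (|G p.1 p.2 k|) * ENNReal.ofReal (4 / J p.2 * A p) := fun k =>
      ENNReal.ofReal_mul (abs_nonneg _)
    rw [e1]
    simp_rw [e3]
    rw [ENNReal.tsum_mul_right]
    refine (mul_le_mul_left e2 _).trans ?_
    rw [← ENNReal.ofReal_mul (by positivity)]
    have e4 : 3 * (J p.2 : ℝ) * (4 / J p.2 * A p) = 12 * A p := by
      field_simp
      ring
    rw [e4, ENNReal.ofReal_mul (by norm_num)]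
    simp
  calc ∑' k, ENNReal.ofReal (gw M k * |Pp G w k|)
      ≤ ∑' k, ∑' p : Fin 2 × ℕ, ENNReal.ofReal (|G p.1 p.2 k| * (4 / J p.2 * A p)) :=
        ENNReal.tsum_le_tsum h1
    _ = ∑' p : Fin 2 × ℕ, ∑' k, ENNReal.ofReal (|G p.1 p.2 k| * (4 / J p.2 * A p)) :=
        ENNReal.tsum_comm
    _ ≤ ∑' p : Fin 2 × ℕ, 12 * ∑' l, (if G p.1 p.2 l ≠ 0 then
          ENNReal.ofReal ((1 + len l) ^ 6 * un w l) else 0) := ENNReal.tsum_le_tsum h2
    _ = 12 * ∑' l, ∑' p : Fin 2 × ℕ, (if G p.1 p.2 l ≠ 0 then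
          ENNReal.ofReal ((1 + len l) ^ 6 * un w l) else 0) := by
        rw [ENNReal.tsum_mul_left, ENNReal.tsum_comm]
    _ ≤ 12 * ∑' l, ENNReal.ofReal ((1 + len l) ^ 6 * un w l) := by
        gcongr with l
        by_cases hl : ∀ e n, G e n l = 0
        · simp [hl]
        · push Not at hl
          obtain ⟨e, n, hl⟩ := hl
          rw [tsum_eq_single (e, n)]
          · rw [if_pos hl]
          · rintro ⟨e', n'⟩ hp
            rw [if_neg]
            intro hc
            obtain ⟨h3, h4⟩ := hP.disj e n e' n' l hl hc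
            exact hp (by rw [h3, h4])
    _ = 12 * ENNReal.ofReal (Wn w) := by
        rw [Wn, ENNReal.ofReal_tsum_of_nonneg hW (Wn_summable hw)]
    _ ≤ 12 * ENNReal.ofReal R := by gcongr
    _ = ENNReal.ofReal (12 * R) := by
        rw [ENNReal.ofReal_mul (by norm_num)]
        simp

theorem sum_Pp' {w : V → V} (hw : SPV w) {R : ℝ} (hR : Wn w ≤ R) {M : ℝ} (hM : 1 ≤ M) :
    (Summable fun k => gw M k * |Pp G w k|) ∧ ∑' k, gw M k * |Pp G w k| ≤ 12 * R := by
  have hR0 := R_nonneg hw hR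
  have h0 : ∀ k, 0 ≤ gw M k * |Pp G w k| := fun k => mul_nonneg (gw_pos M k).le (abs_nonneg _)
  have h1 : ∀ s : Finset K3, ∑ k ∈ s, gw M k * |Pp G w k| ≤ 12 * R := by
    intro s
    rw [← ENNReal.ofReal_le_ofReal_iff (by positivity),
      ENNReal.ofReal_sum_of_nonneg fun k _ => h0 k]
    exact (ENNReal.sum_le_tsum s).trans (sum_Pp hP hw hR hM)
  have h2 : Summable fun k => gw M k * |Pp G w k| := summable_of_sum_le h0 h1
  exact ⟨h2, h2.tsum_le_of_sum_le h1⟩

omit hP in
theorem cwp_two (G : Fin 2 → ℕ → K3 → ℝ) (v : V → V) (k : K3) :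
    cwp G v k 2 = fr (fun x => v x 2) k - (Pp G v k : ℝ) := by
  unfold cwp Pp
  rw [if_pos rfl]

omit hP in
theorem cwp_ne (G : Fin 2 → ℕ → K3 → ℝ) (v : V → V) (k : K3) {j : Fin 3} (hj : j ≠ 2) :
    cwp G v k j = fr (fun x => v x j) k := by
  unfold cwp
  rw [if_neg hj, sub_zero]

omit hP in
theorem bnp_le (w : V → V) (k : K3) : bnp G w k ≤ un w k + |Pp G w k| := by
  have h0 := un_nonneg w k
  have h1 := abs_nonneg (Pp G w k)
  unfold bnp
  rw [Real.sqrt_le_left (by positivity), Fin.sum_univ_three, cwp_two, cwp_ne G w k (by decide),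
    cwp_ne G w k (by decide)]
  have h2 := un_sq w k
  rw [Fin.sum_univ_three] at h2
  have h3 := fr_le_un w k 2
  have h4 : ‖fr (fun x => w x 2) k - (Pp G w k : ℝ)‖ ≤ ‖fr (fun x => w x 2) k‖ + |Pp G w k| := by
    refine (norm_sub_le _ _).trans ?_
    rw [Complex.norm_real, Real.norm_eq_abs]
  have h5 := norm_nonneg (fr (fun x => w x 2) k)
  have h6 : ‖fr (fun x => w x 2) k - (Pp G w k : ℝ)‖ ^ 2
      ≤ (‖fr (fun x => w x 2) k‖ + |Pp G w k|) ^ 2 := pow_le_pow_left₀ (norm_nonneg _) h4 2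
  nlinarith [mul_le_mul_of_nonneg_right h3 h1]

section fin

variable {w v : V → V} {ε R : ℝ} {i : ℕ}

omit hP in
theorem smul_spv {u : V → V} (hu : SPV u) (r : ℝ) : SPV (fun x => r • u x) :=
  sp_spv fun j => sp_cmul (spv_sp hu j) r

theorem am_v0 (hw : SPV w) (hv : v = fun x => w x + ε • dP G i x) (n : ℕ) :
    am (G 0 n) v = am (G 0 n) w + ε * (if i = n then 4 / 5 else 0) := by
  rw [hv, am_lin hP 0 n hw (dP_spv hP i) ε, am_dP0 hP]

theorem am_v1 (hw : SPV w) (hv : v = fun x => w x + ε • dP G i x) (n : ℕ) :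
    am (G 1 n) v = am (G 1 n) w + ε * (if i = n then 3 / 5 else 0) := by
  rw [hv, am_lin hP 1 n hw (dP_spv hP i) ε, am_dP1 hP]

theorem Pp_v (hw : SPV w) (hv : v = fun x => w x + ε • dP G i x) (k : K3) :
    Pp G v k = Pp G w k + ε * (4 / 5 * G 0 i k + 3 / 5 * G 1 i k) := by
  have h1 : HasSum (fun n => G 0 n k * (ε * (if i = n then 4 / 5 else 0))
      + G 1 n k * (ε * (if i = n then 3 / 5 else 0)))
      (G 0 i k * (ε * (4 / 5)) + G 1 i k * (ε * (3 / 5))) := by
    have := hasSum_single (f := fun n => G 0 n k * (ε * (if i = n then 4 / 5 else 0))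
      + G 1 n k * (ε * (if i = n then 3 / 5 else 0))) i (fun n hn => by
        rw [if_neg (Ne.symm hn), if_neg (Ne.symm hn)]; simp)
    simpa using this
  have h2 := (Pp_sum hP w k).hasSum.add h1
  have h3 : (fun n => G 0 n k * am (G 0 n) w + G 1 n k * am (G 1 n) w
      + (G 0 n k * (ε * (if i = n then 4 / 5 else 0)) + G 1 n k * (ε * (if i = n then 3 / 5 else 0))))
      = fun n => G 0 n k * am (G 0 n) v + G 1 n k * am (G 1 n) v := by
    funext n
    rw [am_v0 hP hw hv, am_v1 hP hw hv]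
    ring
  rw [h3] at h2
  have h4 : Pp G v k = _ := h2.tsum_eq
  rw [h4]
  unfold Pp
  ring

theorem cwp_v (hw : SPV w) (hv : v = fun x => w x + ε • dP G i x) (k : K3) (j : Fin 3) :
    cwp G v k j = cwp G w k j := by
  have e : ∀ j, fr (fun x => v x j) k = fr (fun x => w x j) k + ε * fr (fun x => dP G i x j) k := by
    intro j
    have e1 : (fun x => v x j) = fun x => w x j + ε * dP G i x j := by
      funext x; rw [hv]; rfl
    have c1 : Continuous fun x => ε * dP G i x j :=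
      continuous_const.mul (spv_sp (dP_spv hP i) j).cont
    rw [e1, fr_add (spv_sp hw j).cont c1, fr_smul]
  by_cases hj : j = 2
  · subst hj
    rw [cwp_two, cwp_two, e 2, fr_dP hP, Pp_v hP hw hv]
    push_cast
    ring
  · rw [cwp_ne G v k hj, cwp_ne G w k hj, e j]
    simp_rw [dP_ne i _ hj]
    have : fr (fun _ => (0 : ℝ)) k = 0 := by unfold fr fc; simp
    rw [this]
    simp

theorem GG_bound (hw : SPV w) (hv : v = fun x => w x + ε • dP G i x) (hR : Wn w ≤ R)
    (hε : 0 < ε) {M : ℝ} (hM : 1 ≤ M) : ∑' k, gw M k * (bnp G v k / ε) ≤ 13 * R / ε := by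
  obtain ⟨s1, s2⟩ := sum_Pp' hP hw hR hM
  have hb : ∀ k, bnp G v k = bnp G w k := fun k => by
    unfold bnp
    simp_rw [cwp_v hP hw hv]
  have h1 : ∀ k, gw M k * (bnp G v k / ε)
      ≤ ((1 + len k) ^ 6 * un w k + gw M k * |Pp G w k|) / ε := by
    intro k
    have hl := len_nonneg k
    have h2 : gw M k ≤ (1 + len k) ^ 6 := by
      unfold gw
      have a1 : max 1 (len k / M) ≤ 1 + len k :=
        max_le (by linarith) ((div_le_self hl hM).trans (by linarith))
      calc _ ≤ (1 + len k) ^ 3 := pow_le_pow_left₀ (by positivity) a1 3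
        _ ≤ _ := pow_le_pow_right₀ (by linarith) (by norm_num)
    rw [hb, ← mul_div_assoc]
    apply div_le_div_of_nonneg_right _ hε.le
    calc gw M k * bnp G w k ≤ gw M k * (un w k + |Pp G w k|) :=
          mul_le_mul_of_nonneg_left (bnp_le w k) (gw_pos M k).le
      _ = gw M k * un w k + gw M k * |Pp G w k| := by ring
      _ ≤ _ := by
          have := mul_le_mul_of_nonneg_right h2 (un_nonneg w k)
          linarith
  have hs := ((Wn_summable hw).add s1).div_const ε
  have hs' : Summable fun k => gw M k * (bnp G v k / ε) :=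
    Summable.of_nonneg_of_le (fun k => mul_nonneg (gw_pos M k).le
      (div_nonneg (Real.sqrt_nonneg _) hε.le)) h1 hs
  refine (hs'.tsum_le_tsum h1 hs).trans ?_
  rw [tsum_div_const, (Wn_summable hw).tsum_add s1]
  apply div_le_div_of_nonneg_right _ hε.le
  have h3 : ∑' k, (1 + len k) ^ 6 * un w k ≤ R := hR
  linarith

theorem EE_bound (hw : SPV w) (hv : v = fun x => w x + ε • dP G i x) (hR : Wn w ≤ R) :
    EE 0 v ≤ 2 * ε ^ 2 + 2 * R ^ 2 := by
  have hE : EE 0 w ≤ R ^ 2 := by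
    have h1 : ∀ k, len k ^ (2 * 0) * un w k ^ 2 ≤ R * ((1 + len k) ^ 6 * un w k) := by
      intro k
      rw [mul_zero, pow_zero, one_mul, sq]
      apply mul_le_mul (un_le_R hw hR k) _ (un_nonneg w k) (R_nonneg hw hR)
      exact le_mul_of_one_le_left (un_nonneg w k) (one_le_pow₀ (by linarith [len_nonneg k]))
    refine ((EE_summable hw 0).tsum_le_tsum h1 ((Wn_summable hw).mul_left R)).trans ?_
    rw [tsum_mul_left, sq]
    exact mul_le_mul_of_nonneg_left hR (R_nonneg hw hR)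
  have hd := dP_spv hP i
  have hvs : SPV v := by
    rw [hv]
    refine sp_spv fun j => ?_
    exact (spv_sp hw j).add (sp_cmul (spv_sp hd j) ε)
  rw [EE_zero hw] at hE
  rw [EE_zero hvs]
  have h2 : ∀ j, ∫ x in cube, v x j ^ 2
      ≤ ∫ x in cube, (2 * w x j ^ 2 + 2 * ε ^ 2 * dP G i x j ^ 2) := by
    intro j
    refine setIntegral_mono_on ?_ ?_ measurableSet_Icc fun x _ => ?_
    · exact integrableOn_cube ((spv_sp hvs j).cont.pow 2)
    · exact integrableOn_cube ((continuous_const.mul ((spv_sp hw j).cont.pow 2)).add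
        (continuous_const.mul ((spv_sp hd j).cont.pow 2)))
    · have e : v x j = w x j + ε * dP G i x j := by rw [hv]; rfl
      rw [e]
      nlinarith [sq_nonneg (w x j - ε * dP G i x j)]
  have h3 : ∀ j, ∫ x in cube, (2 * w x j ^ 2 + 2 * ε ^ 2 * dP G i x j ^ 2)
      = 2 * (∫ x in cube, w x j ^ 2) + 2 * ε ^ 2 * ∫ x in cube, dP G i x j ^ 2 := by
    intro j
    have i1 : IntegrableOn (fun x => 2 * w x j ^ 2) cube :=
      integrableOn_cube (continuous_const.mul ((spv_sp hw j).cont.pow 2))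
    have i2 : IntegrableOn (fun x => 2 * ε ^ 2 * dP G i x j ^ 2) cube :=
      integrableOn_cube (continuous_const.mul ((spv_sp hd j).cont.pow 2))
    rw [integral_add i1 i2, integral_const_mul, integral_const_mul]
  calc ∑ j, ∫ x in cube, v x j ^ 2 ≤ ∑ j, (2 * (∫ x in cube, w x j ^ 2)
        + 2 * ε ^ 2 * ∫ x in cube, dP G i x j ^ 2) :=
        Finset.sum_le_sum fun j _ => (h2 j).trans (h3 j).le
    _ = 2 * ∑ j, (∫ x in cube, w x j ^ 2)
        + 2 * ε ^ 2 * ∑ j, ∫ x in cube, dP G i x j ^ 2 := by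
        rw [Finset.sum_add_distrib, ← Finset.mul_sum, ← Finset.mul_sum]
    _ ≤ 2 * ε ^ 2 + 2 * R ^ 2 := by
        rw [int_dP hP]
        linarith

end fin

end data

/-- The initial data: part INI of project NSP. -/
theorem ini : S_INI := fun J G hP =>
  ⟨fun i => dP_spv hP i, fun i x => div_dP hP i x, fun i => int_dP hP i,
    fun i m => am_dP0 hP i m, fun i m => am_dP1 hP i m,
    fun e m _ _ hu hv r => am_lin hP e m hu hv r,
    fun _ hw _ hR e m => am_w hP hw hR e m,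
    fun _ _ _ _ _ hw hε hR hv =>
      ⟨fun _ hM => GG_bound hP hw hv hR hε hM, EE_bound hP hw hv hR⟩⟩

end Pool.Agent.N61.NSP
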